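import Pool.Agent.Lib.MP_3d4e6a_al.Main

/-!
# MP_3d4e6a_al: simple groups with the data of the Monster answer Q1 in the negative

`T` is any finite simple group whose order is the order of the Monster and which satisfies four facts
that are published for the Monster (centralisers of elements of order 59 and 29, no elementary abelian
subgroup of order `2 ^ 28`, and the order of the largest centraliser). The soluble graph of `T` has
diameter at least `5`; for every `k ≥ 2` there is a monolithic group with socle `T ^ k` whose soluble
graph has diameter at most `3`.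
-/

namespace Pool.Agent.Results.MP_3d4e6a_al.MonsterDiameter

open Pool.Agent.Lib.MP_3d4e6a_al

theorem result (T : Type) [Group T] [Finite T] [IsSimpleGroup T]
    (card_T : Nat.card T = 808017424794512875886459904961710757005754368000000000)
    (centralizer_59 : ∀ x : T, orderOf x = 59 →
      Nat.card (Subgroup.centralizer {x} : Subgroup T) = 59)
    (centralizer_29 : ∀ x : T, orderOf x = 29 →
      Nat.card (Subgroup.centralizer {x} : Subgroup T) = 87)
    (two_rank : ¬ ∃ E : Subgroup T, Nat.card E = 2 ^ 28 ∧ ∀ g ∈ E, g ^ 2 = 1)
    (centralizer_le : ∀ a : T, a ≠ 1 →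
      Nat.card (Subgroup.centralizer {a} : Subgroup T) ≤ 8309562962452852382355161088000000) :
    5 ≤ (solGraph T).ediam ∧
      ∀ k : ℕ, 2 ≤ k → ∃ (G : Type) (_ : Group G) (_ : Finite G) (N : Subgroup G),
        Nonempty (N ≃* (Fin k → T)) ∧ IsMonolith N ∧ (solGraph G).ediam ≤ 3 :=
  main T card_T centralizer_59 centralizer_29 two_rank centralizer_le

end Pool.Agent.Results.MP_3d4e6a_al.MonsterDiameter
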